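import Pool.Agent.Q196.PC.Main

/-! # MP_2f0ae6_an, Q1: disproof

There is a basic sequence `q` which is dynamically generated by a system of positive
Kolmogorov-Sinai entropy and for which every `q`-normal number is `q`-distribution normal, so that
`N(q) \ DN(q)` is empty; in particular its Hausdorff dimension is `0 < 1`. -/

set_option autoImplicit false

open Q196.PC

namespace Pool.Agent.Results.MP_2f0ae6_an.ParityCode

theorem result :
    ∃ q : ℕ → ℕ, (∀ n, 2 ≤ q n) ∧ NonDeterministic q ∧
      normalSet q \ distNormalSet q = ∅ ∧ dimH (normalSet q \ distNormalSet q) < 1 := by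
  obtain ⟨q, h1, h2, -, h3⟩ := main
  have h : normalSet q \ distNormalSet q = ∅ := Set.diff_eq_empty.2 h3
  exact ⟨q, h1, h2, h, by rw [h, dimH_empty]; norm_num⟩

end Pool.Agent.Results.MP_2f0ae6_an.ParityCode
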